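import Pool.Agent.Helper58.GC.Bridge

set_option autoImplicit false

namespace Pool.Agent.Results.MP_0ba87f_co.ExponentialRate

open Finset Filter Topology

/-- a family of graphs on `Fin n` in which no two distinct members have symmetric difference
equal to a clique -/
def CliqueCode (n : ℕ) (F : Finset (SimpleGraph (Fin n))) : Prop :=
  ∀ G ∈ F, ∀ H ∈ F, G ≠ H →
    ¬ ∃ S : Finset (Fin n), ∀ u v : Fin n,
        (symmDiff G H).Adj u v ↔ (u ≠ v ∧ u ∈ S ∧ v ∈ S)

/-- a family of graphs on `Fin n` in which no two distinct members have symmetric difference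
equal to a clique with an even number of vertices -/
def EvenCliqueCode (n : ℕ) (F : Finset (SimpleGraph (Fin n))) : Prop :=
  ∀ G ∈ F, ∀ H ∈ F, G ≠ H →
    ¬ ∃ S : Finset (Fin n), Even S.card ∧ ∀ u v : Fin n,
        (symmDiff G H).Adj u v ↔ (u ≠ v ∧ u ∈ S ∧ v ∈ S)

/-- the largest density of a clique code: the number `d_K(n)` of the problem -/
noncomputable def dens (n : ℕ) : ℝ :=
  (sSup {m : ℕ | ∃ F, CliqueCode n F ∧ F.card = m} : ℕ) / (2 : ℝ) ^ n.choose 2

/-- the largest density of an even clique code -/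
noncomputable def evenDens (n : ℕ) : ℝ :=
  (sSup {m : ℕ | ∃ F, EvenCliqueCode n F ∧ F.card = m} : ℕ) / (2 : ℝ) ^ n.choose 2

open Pool.Agent.Helper58.GC in
theorem cliqueCode_iff {n : ℕ} {F : Finset (SimpleGraph (Fin n))} :
    CliqueCode n F ↔ SCode (fun _ => True) F := by
  unfold CliqueCode SCode
  simp only [true_and]

open Pool.Agent.Helper58.GC in
theorem evenCliqueCode_iff {n : ℕ} {F : Finset (SimpleGraph (Fin n))} :
    EvenCliqueCode n F ↔ SCode Even F := Iff.rfl

open Pool.Agent.Helper58.GC in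
theorem sSup_eq {n : ℕ} {P : ℕ → Prop} :
    sSup {m : ℕ | ∃ F : Finset (SimpleGraph (Fin n)), SCode P F ∧ F.card = m} = M (Fin n) P := by
  apply le_antisymm
  · apply csSup_le'
    rintro m ⟨F, hF, rfl⟩
    exact scode_card hF
  · apply le_csSup
    · refine ⟨M (Fin n) P, ?_⟩
      rintro m ⟨F, hF, rfl⟩
      exact scode_card hF
    · exact scode_exists P

open Pool.Agent.Helper58.GC in
theorem dens_eq (n : ℕ) : dens n = dK n := by
  unfold dens dK
  simp only [cliqueCode_iff, sSup_eq]

open Pool.Agent.Helper58.GC in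
theorem evenDens_eq (n : ℕ) : evenDens n = dE n := by
  unfold evenDens dE
  simp only [evenCliqueCode_iff, sSup_eq]

open Pool.Agent.Helper58.GC in
/-- The exponential rate of clique codes exists, it is governed by cliques with an even number
of vertices, and it is larger than `0.785`. -/
theorem result :
    ∃ ρ : ℝ, 0 < ρ ∧ ρ ≤ 1 ∧ 15 / 64 ≤ ρ ^ 6 ∧
      Tendsto (fun n : ℕ => dens n ^ (1 / (n : ℝ))) atTop (𝓝 ρ) ∧
      Tendsto (fun n : ℕ => evenDens n ^ (1 / (n : ℝ))) atTop (𝓝 ρ) ∧
      ∀ n : ℕ, 1 ≤ n → evenDens n ≤ ρ ^ (n - 1) := by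
  simp only [funext dens_eq, funext evenDens_eq]
  refine ⟨rho, rho_pos, rho_le_one, ?_, tendsto_dK, tendsto_dE, fun n hn => ?_⟩
  · have h : (((15 : ℝ) / 64) ^ ((1 : ℝ) / 6)) ^ 6 ≤ rho ^ 6 :=
      pow_le_pow_left₀ (by positivity) rho_ge 6
    rwa [← Real.rpow_natCast, ← Real.rpow_mul (by norm_num),
      show (1 : ℝ) / 6 * ((6 : ℕ) : ℝ) = 1 by norm_num, Real.rpow_one] at h
  · rcases Nat.lt_or_ge n 2 with h2 | h2
    · have : n - 1 = 0 := by omega
      rw [this, pow_zero]
      exact dE_le_one n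
    · have h := le_rho h2
      have hn2 : (2 : ℝ) ≤ n := by exact_mod_cast h2
      have h3 := pow_le_pow_left₀ (by have := dE_pos n; positivity) h (n - 1)
      rwa [← Real.rpow_natCast, ← Real.rpow_mul (dE_pos n).le, Nat.cast_sub (by omega),
        Nat.cast_one, one_div, inv_mul_cancel₀ (by linarith), Real.rpow_one] at h3

end Pool.Agent.Results.MP_0ba87f_co.ExponentialRate
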