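import Mathlib
import Pool.Agent.Helper90.GC.Basic

set_option autoImplicit false

namespace Pool.Agent.Results.MP_0ba87f_co.OneFifth

open Finset Pool.Agent.Helper90.GC

variable {n : ℕ}

/-- The possible edges. -/
abbrev Ed (n : ℕ) := {e : Sym2 (Fin n) // ¬ e.IsDiag}

/-- Product of the two coordinates of a vector at a pair. -/
def pr (x : Fin n → ZMod 2) (e : Sym2 (Fin n)) : ZMod 2 :=
  Sym2.lift ⟨fun a b => x a * x b, fun _ _ => mul_comm _ _⟩ e

/-- The polar form of `pr`. -/
def bp (x y : Fin n → ZMod 2) (e : Sym2 (Fin n)) : ZMod 2 :=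
  Sym2.lift ⟨fun a b => x a * y b + x b * y a, fun _ _ => add_comm _ _⟩ e

lemma pr_add (x y : Fin n → ZMod 2) (e : Sym2 (Fin n)) :
    pr (x + y) e = pr x e + pr y e + bp x y e := by
  induction e using Sym2.ind with
  | _ a b => simp only [pr, bp, Sym2.lift_mk, Pi.add_apply]; ring

lemma bp_add (x y z : Fin n → ZMod 2) (e : Sym2 (Fin n)) :
    bp (x + y) z e = bp x z e + bp y z e := by
  induction e using Sym2.ind with
  | _ a b => simp only [bp, Sym2.lift_mk, Pi.add_apply]; ring

/-- The clique difference of the set of ones of `x`. -/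
def K (x : Fin n → ZMod 2) : Finset (Ed n) := univ.filter (fun e => pr x e.1 = 1)

lemma mem_K (x : Fin n → ZMod 2) (e : Ed n) : e ∈ K x ↔ pr x e.1 = 1 := by
  simp [K]

lemma pr_mk (x : Fin n → ZMod 2) (a b : Fin n) : pr x s(a, b) = x a * x b := rfl

lemma sg_pr (x : Fin n → ZMod 2) (e : Ed n) : sg (pr x e.1) = if e ∈ K x then -1 else 1 := by
  simp only [K, mem_filter, mem_univ, true_and]
  generalize pr x e.1 = a
  revert a; decide

lemma w_K (H : Finset (Ed n)) (x : Fin n → ZMod 2) :
    w H (K x) = sg (∑ e ∈ H, pr x e.1) := by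
  rw [sg_sum]
  unfold w
  exact prod_congr rfl (fun e _ => (sg_pr x e).symm)

lemma card_V : Fintype.card (Fin n → ZMod 2) = 2 ^ n := by simp [ZMod.card]

lemma lam_lower (H : Finset (Ed n)) (hH : H ≠ ∅) :
    -(2 : ℤ) ^ n ≤ 4 * ∑ x : Fin n → ZMod 2, w H (K x) := by
  classical
  obtain ⟨e, he⟩ := Finset.nonempty_of_ne_empty hH
  obtain ⟨s, hs⟩ := e
  induction s using Sym2.ind with
  | _ a b =>
  have hab : a ≠ b := by simpa using hs
  have key := quad_lower_four (V := Fin n → ZMod 2) (fun x => ∑ e ∈ H, pr x e.1)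
    (fun x y => ∑ e ∈ H, bp x y e.1)
    (by intro x y; simp only [pr_add, sum_add_distrib])
    (by intro x y z; simp only [bp_add, sum_add_distrib])
    (Pi.single a 1) (Pi.single b 1) ?_ ?_ ?_
  · rw [card_V] at key
    push_cast at key
    have : ∑ x : Fin n → ZMod 2, w H (K x)
        = ∑ x : Fin n → ZMod 2, sg (∑ e ∈ H, pr x e.1) :=
      sum_congr rfl (fun x _ => w_K H x)
    rw [this]
    exact key
  · refine sum_eq_zero (fun e _ => ?_)
    obtain ⟨s, hs⟩ := e
    induction s using Sym2.ind with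
    | _ c d =>
    have hcd : c ≠ d := by simpa using hs
    simp only [pr, Sym2.lift_mk, Pi.single_apply]
    split_ifs <;> simp_all
  · refine sum_eq_zero (fun e _ => ?_)
    obtain ⟨s, hs⟩ := e
    induction s using Sym2.ind with
    | _ c d =>
    have hcd : c ≠ d := by simpa using hs
    simp only [pr, Sym2.lift_mk, Pi.single_apply]
    split_ifs <;> simp_all
  · rw [sum_eq_single_of_mem _ he]
    · simp [bp, hab, hab.symm]
    · intro e _ hne
      obtain ⟨t, ht⟩ := e
      induction t using Sym2.ind with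
      | _ c d =>
      have hne' : s(c, d) ≠ s(a, b) := fun h => hne (Subtype.ext h)
      simp only [bp, Sym2.lift_mk, Pi.single_apply]
      have h1 : ¬ (c = a ∧ d = b) := fun h => hne' (by rw [h.1, h.2])
      have h2 : ¬ (d = a ∧ c = b) := fun h => hne' (by rw [h.1, h.2]; exact Sym2.eq_swap)
      have e1 : (if c = a then (1 : ZMod 2) else 0) * (if d = b then 1 else 0) = 0 := by
        by_cases hc : c = a
        · have : d ≠ b := fun h => h1 ⟨hc, h⟩
          simp [this]
        · simp [hc]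
      have e2 : (if d = a then (1 : ZMod 2) else 0) * (if c = b then 1 else 0) = 0 := by
        by_cases hc : d = a
        · have : c ≠ b := fun h => h2 ⟨hc, h⟩
          simp [this]
        · simp [hc]
      rw [e1, e2, add_zero]

lemma lam_empty : ∑ x : Fin n → ZMod 2, w (∅ : Finset (Ed n)) (K x) = (2 : ℤ) ^ n := by
  simp [w_empty, card_univ]

lemma card_K_empty :
    (univ.filter (fun x : Fin n → ZMod 2 => K x = ∅)).card ≤ n + 1 := by
  classical
  have hsub : univ.filter (fun x : Fin n → ZMod 2 => K x = ∅)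
      ⊆ insert 0 (univ.image (fun a : Fin n => (Pi.single a 1 : Fin n → ZMod 2))) := by
    intro x hx
    rw [mem_filter] at hx
    have hx := hx.2
    rw [mem_insert, mem_image]
    by_cases h0 : x = 0
    · exact Or.inl h0
    · right
      obtain ⟨a, ha⟩ := Function.ne_iff.mp h0
      have ha1 : x a = 1 := one_of_ne ha
      refine ⟨a, mem_univ _, ?_⟩
      funext b
      by_cases hb : b = a
      · subst hb; simp [ha1]
      · rw [Pi.single_apply, if_neg hb]
        by_contra hne
        have hb1 : x b = 1 := one_of_ne (Ne.symm hne)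
        have hd : ¬ (s(a, b) : Sym2 (Fin n)).IsDiag := by
          simpa using Ne.symm hb
        have : (⟨s(a, b), hd⟩ : Ed n) ∈ K x := by
          rw [mem_K, pr_mk, ha1, hb1, one_mul]
        rw [hx] at this
        simp at this
  refine (card_le_card hsub).trans ?_
  refine (card_insert_le _ _).trans ?_
  have := card_image_le (s := (univ : Finset (Fin n)))
    (f := fun a : Fin n => (Pi.single a 1 : Fin n → ZMod 2))
  simp only [card_univ, Fintype.card_fin] at this
  omega

/-- Abstract form of the bound. -/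
theorem code_bound (F : Finset (Finset (Ed n)))
    (hF : ∀ S ∈ F, ∀ T ∈ F, ∀ x : Fin n → ZMod 2, symmDiff S T = K x → K x = ∅) :
    5 * (2 : ℤ) ^ n * F.card ≤ (2 : ℤ) ^ (Fintype.card (Ed n)) * (2 ^ n + 4 * (n + 1)) := by
  classical
  rcases Nat.eq_zero_or_pos F.card with h0 | hpos
  · rw [h0]; simp; positivity
  set N : ℤ := (2 : ℤ) ^ (Fintype.card (Ed n)) with hN
  have hNpos : 0 < N := by positivity
  -- the count
  have hcount : ∑ x : Fin n → ZMod 2, ∑ H : Finset (Ed n), (fh F H) ^ 2 * w H (K x)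
      ≤ N * ((n + 1) * F.card) := by
    have h1 : ∀ x : Fin n → ZMod 2, ∑ H : Finset (Ed n), (fh F H) ^ 2 * w H (K x)
        = if K x = ∅ then N * F.card else 0 := by
      intro x
      split_ifs with hx
      · rw [hx, ← sum_fh_sq]
        exact sum_congr rfl (fun H _ => by simp [w])
      · rw [sum_fh]
        have : ∑ S ∈ F, ∑ T ∈ F,
            (if symmDiff (symmDiff S T) (K x) = ∅ then (1 : ℤ) else 0) = 0 := by
          refine sum_eq_zero (fun S hS => sum_eq_zero (fun T hT => ?_))
          rw [if_neg]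
          intro h
          have h' : symmDiff S T = K x := symmDiff_eq_bot.mp h
          exact hx (hF S hS T hT x h')
        rw [this, mul_zero]
    rw [sum_congr rfl (fun x _ => h1 x), ← sum_filter, sum_const, nsmul_eq_mul]
    have h2 : ((univ.filter (fun x : Fin n → ZMod 2 => K x = ∅)).card : ℤ) ≤ n + 1 := by
      exact_mod_cast card_K_empty
    have h3 : (0 : ℤ) ≤ N * F.card := by positivity
    nlinarith
  rw [sum_comm] at hcount
  have hmul : ∀ H : Finset (Ed n), ∑ x : Fin n → ZMod 2, (fh F H) ^ 2 * w H (K x)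
      = (fh F H) ^ 2 * ∑ x : Fin n → ZMod 2, w H (K x) := fun H => (mul_sum _ _ _).symm
  rw [sum_congr rfl (fun H _ => hmul H)] at hcount
  have hsplit : ∑ H : Finset (Ed n), (fh F H) ^ 2 * ∑ x : Fin n → ZMod 2, w H (K x)
      = (fh F ∅) ^ 2 * (2 : ℤ) ^ n +
        ∑ H ∈ univ.erase (∅ : Finset (Ed n)),
          (fh F H) ^ 2 * ∑ x : Fin n → ZMod 2, w H (K x) := by
    rw [← add_sum_erase _ _ (mem_univ (∅ : Finset (Ed n))), lam_empty]
  have hpars : ∑ H : Finset (Ed n), (fh F H) ^ 2
      = (fh F ∅) ^ 2 + ∑ H ∈ univ.erase (∅ : Finset (Ed n)), (fh F H) ^ 2 := by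
    rw [← add_sum_erase _ _ (mem_univ (∅ : Finset (Ed n)))]
  rw [sum_fh_sq] at hpars
  have hlow : -(2 : ℤ) ^ n * ∑ H ∈ univ.erase (∅ : Finset (Ed n)), (fh F H) ^ 2
      ≤ 4 * ∑ H ∈ univ.erase (∅ : Finset (Ed n)),
          (fh F H) ^ 2 * ∑ x : Fin n → ZMod 2, w H (K x) := by
    rw [mul_sum, mul_sum]
    refine sum_le_sum (fun H hH => ?_)
    have h := lam_lower H (ne_of_mem_erase hH)
    have h2 : 0 ≤ (fh F H) ^ 2 := sq_nonneg _
    nlinarith
  have hf0 : fh F ∅ = F.card := by simp [fh, w_empty]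
  rw [hf0] at hsplit hpars
  rw [hsplit] at hcount
  have hc : (0 : ℤ) < F.card := by exact_mod_cast hpos
  set c : ℤ := (F.card : ℤ) with hcdef
  set P : ℤ := (2 : ℤ) ^ n with hP
  set R := ∑ H ∈ univ.erase (∅ : Finset (Ed n)), (fh F H) ^ 2 with hR
  set Q := ∑ H ∈ univ.erase (∅ : Finset (Ed n)),
          (fh F H) ^ 2 * ∑ x : Fin n → ZMod 2, w H (K x) with hQ
  -- c^2 P + Q ≤ N (n+1) c ; -P R ≤ 4 Q ; N c = c^2 + R
  have hfin : c * (5 * P * c) ≤ c * (N * (P + 4 * (n + 1))) := by
    have e1 : R = N * c - c ^ 2 := by linarith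
    rw [e1] at hlow
    nlinarith
  exact le_of_mul_le_mul_left hfin hc

/-- The edges of a graph as a finite set. -/
noncomputable def es (G : SimpleGraph (Fin n)) : Finset (Ed n) := by
  classical
  exact univ.filter (fun e => e.1 ∈ G.edgeSet)

lemma mem_es (G : SimpleGraph (Fin n)) (e : Ed n) : e ∈ es G ↔ e.1 ∈ G.edgeSet := by
  classical
  simp [es]

lemma es_inj : Function.Injective (es (n := n)) := by
  intro G H h
  rw [← SimpleGraph.edgeSet_inj]
  ext e
  constructor
  · intro he
    have hd := SimpleGraph.not_isDiag_of_mem_edgeSet G he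
    have : (⟨e, hd⟩ : Ed n) ∈ es G := (mem_es _ _).mpr he
    rw [h] at this
    exact (mem_es _ _).mp this
  · intro he
    have hd := SimpleGraph.not_isDiag_of_mem_edgeSet H he
    have : (⟨e, hd⟩ : Ed n) ∈ es H := (mem_es _ _).mpr he
    rw [← h] at this
    exact (mem_es _ _).mp this

/-- For every `n` a family of graphs on `n` labelled vertices, no two distinct members of which
have symmetric difference equal to a clique, has at most
`(1/5 + 4(n+1)/(5*2^n)) * 2^(n choose 2)` members. -/
theorem result (n : ℕ) (F : Finset (SimpleGraph (Fin n)))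
    (hF : ∀ G ∈ F, ∀ H ∈ F, G ≠ H →
      ¬ ∃ S : Finset (Fin n), ∀ u v : Fin n,
        (symmDiff G H).Adj u v ↔ (u ≠ v ∧ u ∈ S ∧ v ∈ S)) :
    (F.card : ℝ) ≤ (1 / 5 + 4 * (n + 1) / (5 * 2 ^ n)) * (2 : ℝ) ^ (n.choose 2) := by
  classical
  have hcard : Fintype.card (Ed n) = n.choose 2 := by
    rw [Sym2.card_subtype_not_diag, Fintype.card_fin]
  have key := code_bound (n := n) (F.image es) ?_
  · rw [card_image_of_injective _ es_inj, hcard] at key
    have key' : (5 : ℝ) * 2 ^ n * F.card ≤ 2 ^ (n.choose 2) * (2 ^ n + 4 * (n + 1)) := by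
      exact_mod_cast key
    have hp : (0 : ℝ) < 5 * 2 ^ n := by positivity
    have : (1 / 5 + 4 * ((n : ℝ) + 1) / (5 * 2 ^ n)) * (2 : ℝ) ^ (n.choose 2)
        = (2 ^ (n.choose 2) * (2 ^ n + 4 * (n + 1))) / (5 * 2 ^ n) := by
      field_simp
    rw [this, le_div_iff₀ hp]
    linarith
  · intro S hS T hT x hx
    rw [mem_image] at hS hT
    obtain ⟨G, hG, rfl⟩ := hS
    obtain ⟨H, hH, rfl⟩ := hT
    by_contra hne
    have hGH : G ≠ H := by
      rintro rfl
      rw [symmDiff_self] at hx
      exact hne hx.symm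
    apply hF G hG H hH hGH
    refine ⟨univ.filter (fun i => x i = 1), fun u v => ?_⟩
    have hadj : (symmDiff G H).Adj u v ↔ ((G.Adj u v ∧ ¬ H.Adj u v) ∨ (H.Adj u v ∧ ¬ G.Adj u v)) := by
      rw [symmDiff_def]
      simp [SimpleGraph.sup_adj, SimpleGraph.sdiff_adj]
    rw [hadj]
    by_cases huv : u = v
    · subst huv; simp
    · have hd : ¬ (s(u, v) : Sym2 (Fin n)).IsDiag := by simpa using huv
      have h1 : (⟨s(u, v), hd⟩ : Ed n) ∈ symmDiff (es G) (es H)
          ↔ (⟨s(u, v), hd⟩ : Ed n) ∈ K x := by rw [hx]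
      rw [mem_symmDiff, mem_es, mem_es, mem_K, pr_mk] at h1
      simp only [SimpleGraph.mem_edgeSet] at h1
      rw [h1]
      simp only [ne_eq, huv, not_false_eq_true, true_and, mem_filter, mem_univ]
      generalize x u = a
      generalize x v = b
      revert a b; decide

end Pool.Agent.Results.MP_0ba87f_co.OneFifth
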