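import Pool.Agent.Helper58.GC.Thresh

set_option autoImplicit false

namespace Pool.Agent.Results.MP_0ba87f_co.ParityThreshold

open Finset

/-- a family of graphs on `Fin n` in which no two distinct members have symmetric difference
equal to a clique -/
def CliqueCode (n : ℕ) (F : Finset (SimpleGraph (Fin n))) : Prop :=
  ∀ G ∈ F, ∀ H ∈ F, G ≠ H →
    ¬ ∃ S : Finset (Fin n), ∀ u v : Fin n,
        (symmDiff G H).Adj u v ↔ (u ≠ v ∧ u ∈ S ∧ v ∈ S)

open Classical in
/-- the parity character of a set `E` of pairs: `1` if the number of edges of `G` in `E` is even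
and `-1` if it is odd -/
noncomputable def parity {n : ℕ} (E : Finset (Sym2 (Fin n))) (G : SimpleGraph (Fin n)) : ℝ :=
  (-1) ^ (E.filter fun e => e ∈ G.edgeSet).card

open Pool.Agent.Helper58.GC in
theorem parity_eq {n : ℕ} (E : Finset (Sym2 (Fin n))) (G : SimpleGraph (Fin n)) :
    parity E G = chr E G := by
  classical
  have h : par E G = ((E.filter fun e => e ∈ G.edgeSet).card : ZMod 2) := by
    unfold par ind
    rw [← Finset.sum_filter, Finset.sum_const, nsmul_eq_mul, mul_one]
  unfold parity chr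
  rw [h]
  rcases Nat.even_or_odd (E.filter fun e => e ∈ G.edgeSet).card with h1 | h1
  · rw [h1.neg_one_pow, if_pos]
    exact (ZMod.natCast_eq_zero_iff_even).2 h1
  · rw [h1.neg_one_pow, if_neg]
    rw [ZMod.natCast_eq_zero_iff_even]
    exact Nat.not_even_iff_odd.2 h1

open Pool.Agent.Helper58.GC in
theorem cliqueCode_iff {n : ℕ} {F : Finset (SimpleGraph (Fin n))} :
    CliqueCode n F ↔ SCode (fun _ => True) F := by
  unfold CliqueCode SCode
  simp only [true_and]

open Pool.Agent.Helper58.GC in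
/-- A clique code which is given by a threshold of parities of total weight `W` has density at
most `1/2 * (1 + 1/W) ^ (1 - n/2)`. -/
theorem result (n : ℕ) (hn : 2 ≤ n) (F : Finset (SimpleGraph (Fin n))) (hF : CliqueCode n F)
    (s : ℕ) (E : Fin s → Finset (Sym2 (Fin n))) (c₀ : ℝ) (c : Fin s → ℝ) (W : ℝ) (hW : 0 < W)
    (hc : ∑ j, |c j| ≤ W)
    (h1 : ∀ G ∈ F, 1 ≤ c₀ + ∑ j, c j * parity (E j) G)
    (h2 : ∀ G, G ∉ F → c₀ + ∑ j, c j * parity (E j) G ≤ -1) :
    (F.card : ℝ) / 2 ^ n.choose 2 ≤ 1 / 2 / (1 + 1 / W) ^ (n / 2 - 1) := by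
  simp only [parity_eq] at h1 h2
  have h := threshold hn (cliqueCode_iff.1 hF) E c₀ c hW hc h1 h2
  have hpos : 0 < (1 + 1 / W) ^ (n / 2 - 1) := by positivity
  rw [div_le_div_iff₀ (by positivity) hpos]
  exact h

end Pool.Agent.Results.MP_0ba87f_co.ParityThreshold
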