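import Mathlib
import Pool.Agent.SPB.Main

set_option autoImplicit false

/-!
A barrier for spectral upper bounds on clique codes (MP_0ba87f_co).  A graph on `n` labelled vertices is a set of
pairs `i < j`, that is a `Finset (Pr n)`; `K U` is the clique on the vertex set `U`.
-/

namespace Pool.Agent.Results.MP_0ba87f_co.SpectralBarrier

open Pool.Agent.SPB

/-- (1) a random graph which is empty with probability at least 1/18 although the number of its edges in every vertex
set with at least two elements is even with probability exactly 1/2; (2) no real weights on the cliques give a ratio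
bound below 1/18; (3) Delsarte's linear programme has a feasible point of value at least `2 ^ (n choose 2) / 324`. -/
theorem result (n : ℕ) :
    (∃ m : Finset (Pr n) → ℝ, (∀ G, 0 ≤ m G) ∧ ∑ G, m G = 1 ∧ 1 / 18 ≤ m ∅ ∧
      ∀ U : Finset (Fin n), 2 ≤ U.card → ∑ G with Even (K U ∩ G).card, m G = 1 / 2) ∧
    (∀ (g : Finset (Fin n) → ℝ) (lam : ℝ), ∑ U with 2 ≤ U.card, g U = 1 →
      (∀ G : Finset (Pr n), -lam ≤ ∑ U with 2 ≤ U.card, g U * (-1) ^ (K U ∩ G).card) →
      1 / 18 ≤ lam / (1 + lam)) ∧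
    (∃ f : Finset (Pr n) → ℝ, (∀ E, 0 ≤ f E) ∧ f ∅ = 1 ∧
      (∀ U : Finset (Fin n), 2 ≤ U.card → f (K U) = 0) ∧
      (∀ G : Finset (Pr n), 0 ≤ ∑ E, f E * (-1) ^ (E ∩ G).card) ∧
      2 ^ (n.choose 2) / 324 ≤ ∑ E, f E) := by
  obtain ⟨m, h0, h1, hm, h⟩ := exists_measure n
  refine ⟨⟨m, h0, h1, hm, fun U hU => even_half h1 (h U hU)⟩, fun g lam hg hlam =>
    ratio_barrier h0 h1 (by norm_num) hm h g lam hg hlam, ?_⟩
  obtain ⟨f, f0, f1, f2, f3, f4⟩ := delsarte h0 h1 (c := 1 / 18) (by norm_num) hm h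
  refine ⟨f, f0, f1, f2, f3, le_trans (le_of_eq ?_) f4⟩
  ring

end Pool.Agent.Results.MP_0ba87f_co.SpectralBarrier
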